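import Pool.Agent.Helper12.PC.Dyadic
import Pool.Agent.Results.MP_ae0f86_nt.OneMotivesAndTowers

set_option autoImplicit false

/-! The exceptional points of the families of 1-motives and towers, counted by their size. -/

open NumberField
open scoped PeriodPair

namespace Pool.Agent.Helper12.PC

open Pool.Agent.Results.MP_ae0f86_nt.OneMotivesAndTowers (Family periods Points Exceptional)

/-- The size of an element `x` of a number field: the least natural number `T` such that `x` is the quotient of two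
integers of `F` all of whose conjugates have absolute value at most `T`. For `F = ℚ` it is the maximum of the
absolute values of the numerator and the denominator. -/
noncomputable def size {F : Type} [Field F] [NumberField F] (x : F) : ℕ :=
  sInf {T : ℕ | ∃ a b : 𝓞 F, b ≠ 0 ∧ (∀ φ : F →+* ℂ, ‖φ a‖ ≤ T ∧ ‖φ b‖ ≤ T) ∧ x = a / b}

/-- Let `v_j`, `j ∈ J`, be functions, `ξ_1, …, ξ_g` complex numbers, `ι` an embedding of the number field `F` in `ℂ`
and `x ∈ F`. All polynomials `P` of degree at most `d` in each variable, with coefficients of the form `∑ ξ_i ι(c_i)`,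
where the `c_i` are integers of `F` all of whose conjugates have absolute value at most `H ^ A`, `H` the size of `x`,
take at the numbers `v_j (ι x)` values of absolute value larger than `H ^ (-B)` times the absolute value of every
nonzero coefficient of `P`. -/
def Independent {J : Type} (v : ℂ → J → ℂ) (d : ℕ) {F : Type} [Field F] [NumberField F] (ι : F →+* ℂ) {g : ℕ}
    (ξ : Fin g → ℂ) (A B : ℝ) (x : F) : Prop :=
  ∀ P : MvPolynomial J ℂ, (∀ y, P.degreeOf y ≤ d) →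
    (∀ s, ∃ c : Fin g → 𝓞 F, (∀ i (φ : F →+* ℂ), ‖φ (c i)‖ ≤ (size x : ℝ) ^ A) ∧ P.coeff s = ∑ i, ξ i * ι (c i)) →
    ∀ s, P.coeff s ≠ 0 → (size x : ℝ) ^ (-B) * ‖P.coeff s‖ < ‖MvPolynomial.aeval (v (ι x)) P‖

section
variable {F : Type} [Field F] [NumberField F]

lemma exists_nat_bound (a b : 𝓞 F) : ∃ T : ℕ, ∀ φ : F →+* ℂ, ‖φ a‖ ≤ T ∧ ‖φ b‖ ≤ T := by
  classical
  obtain ⟨T, hT⟩ := exists_nat_ge (∑ φ : F →+* ℂ, (‖φ a‖ + ‖φ b‖))
  refine ⟨T, fun φ => ?_⟩
  have h1 : ‖φ a‖ + ‖φ b‖ ≤ ∑ φ : F →+* ℂ, (‖φ a‖ + ‖φ b‖) :=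
    Finset.single_le_sum (f := fun φ : F →+* ℂ => ‖φ a‖ + ‖φ b‖) (fun φ _ => by positivity) (Finset.mem_univ φ)
  have h2 := norm_nonneg (φ a)
  have h3 := norm_nonneg (φ b)
  constructor <;> linarith

lemma size_spec (x : F) : ∃ a b : 𝓞 F, b ≠ 0 ∧ (∀ φ : F →+* ℂ, ‖φ a‖ ≤ size x ∧ ‖φ b‖ ≤ size x) ∧ x = a / b := by
  have hne : {T : ℕ | ∃ a b : 𝓞 F, b ≠ 0 ∧ (∀ φ : F →+* ℂ, ‖φ a‖ ≤ T ∧ ‖φ b‖ ≤ T) ∧ x = a / b}.Nonempty := by
    obtain ⟨a, b, hb, hx⟩ := IsFractionRing.div_surjective (A := 𝓞 F) x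
    obtain ⟨T, hT⟩ := exists_nat_bound a b
    exact ⟨T, a, b, nonZeroDivisors.ne_zero hb, hT, hx.symm⟩
  exact Nat.sInf_mem hne

lemma points_finite (ι : F →+* ℂ) (K : Set ℂ) (T : ℝ) : (Points F ι K T).Finite := by
  have h1 := Embeddings.finite_of_norm_le F ℂ T
  refine ((h1.prod h1).image fun p : F × F => p.1 / p.2).subset ?_
  rintro x ⟨-, a, b, -, hab, hx⟩
  exact ⟨((a : F), (b : F)), ⟨⟨a.isIntegral_coe, fun φ => (hab φ).1⟩, ⟨b.isIntegral_coe, fun φ => (hab φ).2⟩⟩, hx.symm⟩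

lemma size_finite (ι : F →+* ℂ) (K : Set ℂ) (m : ℕ) : {x : F | ι x ∈ K ∧ size x < m}.Finite := by
  refine (points_finite ι K m).subset ?_
  rintro x ⟨h1, h2⟩
  obtain ⟨a, b, hb, hab, hx⟩ := size_spec x
  have h3 : ((size x : ℕ) : ℝ) ≤ m := by exact_mod_cast h2.le
  exact ⟨h1, a, b, hb, fun φ => ⟨(hab φ).1.trans h3, (hab φ).2.trans h3⟩, hx⟩

/-- an exceptional point of size between `T / 2` and `T` -/
lemma exceptional_of {J : Type} (v : ℂ → J → ℂ) (d : ℕ) (ι : F →+* ℂ) {g : ℕ} (ξ : Fin g → ℂ) (K : Set ℂ)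
    {A B T : ℝ} (hT : 4 ≤ T) {x : F} (hxK : ι x ∈ K) (h1 : T ≤ 2 * (size x : ℝ)) (h2 : (size x : ℝ) ≤ T)
    (hx : ¬ Independent v d ι ξ A (2 * max B 0) x) :
    (fun _ : Fin 1 => x) ∈ Exceptional 1 d (fun _ => v) F ι ξ K (max A 0) B T := by
  unfold Independent at hx
  push Not at hx
  obtain ⟨P, hPd, hPc, s₀, hs₀, hle⟩ := hx
  have hs1 : (1 : ℝ) ≤ size x := by linarith
  have hs0 : (0 : ℝ) < size x := by linarith
  have hT0 : 0 < T := by linarith
  have hf : Function.Injective (fun j : J => ((0 : Fin 1), j)) := fun a b hab => (Prod.ext_iff.1 hab).2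
  refine ⟨fun _ => ?_, MvPolynomial.rename (fun j : J => ((0 : Fin 1), j)) P, fun y => ?_, fun s => ?_, ?_⟩
  · obtain ⟨a, b, hb, hab, hxab⟩ := size_spec x
    exact ⟨hxK, a, b, hb, fun φ => ⟨(hab φ).1.trans h2, (hab φ).2.trans h2⟩, hxab⟩
  · obtain ⟨i, j⟩ := y
    have hi : i = 0 := Subsingleton.elim _ _
    subst hi
    have h3 := MvPolynomial.degreeOf_rename_of_injective (p := P) hf j
    exact h3.le.trans (hPd j)
  · have h3 : s = Finsupp.mapDomain (fun j : J => ((0 : Fin 1), j)) (Finsupp.mapDomain Prod.snd s) := by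
      rw [← Finsupp.mapDomain_comp]
      have h4 : ((fun j : J => ((0 : Fin 1), j)) ∘ Prod.snd) = id := by
        funext y
        obtain ⟨i, j⟩ := y
        exact Prod.ext (Subsingleton.elim _ _) rfl
      rw [h4, Finsupp.mapDomain_id]
    obtain ⟨c, hc1, hc2⟩ := hPc (Finsupp.mapDomain Prod.snd s)
    refine ⟨c, fun i φ => (hc1 i φ).trans ?_, ?_⟩
    · calc (size x : ℝ) ^ A ≤ (size x : ℝ) ^ (max A 0) := Real.rpow_le_rpow_of_exponent_le hs1 (le_max_left _ _)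
        _ ≤ T ^ (max A 0) := Real.rpow_le_rpow hs0.le h2 (le_max_right _ _)
    · rw [h3, MvPolynomial.coeff_rename_mapDomain _ hf]
      exact hc2
  · refine ⟨Finsupp.mapDomain (fun j : J => ((0 : Fin 1), j)) s₀, ?_, ?_⟩
    · rw [MvPolynomial.coeff_rename_mapDomain _ hf]
      exact hs₀
    · rw [MvPolynomial.coeff_rename_mapDomain _ hf, MvPolynomial.aeval_rename]
      refine le_trans hle (mul_le_mul_of_nonneg_right ?_ (norm_nonneg _))
      have h5 : T ^ (1 / 2 : ℝ) ≤ size x := by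
        have h6 : T ^ (1 / 2 : ℝ) * T ^ (1 / 2 : ℝ) = T := by
          rw [← Real.rpow_add hT0]
          norm_num
        have h7 : (2 : ℝ) ≤ T ^ (1 / 2 : ℝ) := by
          calc (2 : ℝ) = (4 : ℝ) ^ (1 / 2 : ℝ) := by
                rw [show (4 : ℝ) = 2 ^ (2 : ℝ) by norm_num, ← Real.rpow_mul (by norm_num)]
                norm_num
            _ ≤ T ^ (1 / 2 : ℝ) := Real.rpow_le_rpow (by norm_num) hT (by norm_num)
        nlinarith
      have h8 : 0 < T ^ (1 / 2 : ℝ) := by positivity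
      calc (size x : ℝ) ^ (-(2 * max B 0)) ≤ (T ^ (1 / 2 : ℝ)) ^ (-(2 * max B 0)) :=
            Real.rpow_le_rpow_of_nonpos h8 h5 (by have := le_max_right B 0; linarith)
        _ = T ^ (-(max B 0)) := by
            rw [← Real.rpow_mul hT0.le]
            congr 1
            ring
        _ ≤ T ^ (-B) := Real.rpow_le_rpow_of_exponent_le (by linarith) (by have := le_max_left B 0; linarith)

end

/-- **few exceptional points** -/
theorem count {r s q : ℕ} (U : Set ℂ) (Λ : ℂ → PeriodPair) (u : Fin r → ℂ → ℂ)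
    (t : Fin s → ℂ → ℂ) (N : Fin q → Fin r → ℤ) (S : Fin q → ℂ → ℂ)
    (hU : Family U Λ u t N S) (K : Set ℂ) (hK : IsCompact K) (hKU : K ⊆ U)
    (F : Type) [Field F] [NumberField F] (ι : F →+* ℂ) (g d : ℕ) (A ε : ℝ) (hε : 0 < ε) :
    ∃ B : ℝ, ∀ ξ : Fin g → ℂ, ∀ η : ℝ, 0 < η → ∃ C : ℝ, ∀ X : ℝ, 1 ≤ X →
      {x : F | (ι x ∈ K ∧ ¬ Independent (periods Λ u t S) d ι ξ A B x) ∧ (size x : ℝ) ≤ X}.Finite ∧
      ({x : F | (ι x ∈ K ∧ ¬ Independent (periods Λ u t S) d ι ξ A B x) ∧ (size x : ℝ) ≤ X}.ncard : ℝ) ≤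
        C * X ^ (ε + η) := by
  obtain ⟨B₀, C₀, T₀, H⟩ := Pool.Agent.Results.MP_ae0f86_nt.OneMotivesAndTowers.result (n := 1) (fun _ => U)
    (fun _ => Λ) (fun _ => u) (fun _ => t) (fun _ => N) (fun _ => S) (fun _ => hU) K hK (fun _ => hKU)
    (Module.finrank ℚ F) g d (max A 0) ε hε
  refine ⟨2 * max B₀ 0, fun ξ => ?_⟩
  obtain ⟨j₀, hj₀⟩ : ∃ j₀ : ℕ, max T₀ 4 ≤ (2 : ℝ) ^ j₀ := (pow_unbounded_of_one_lt (max T₀ 4) (one_lt_two (α := ℝ))).imp fun _ h => h.le
  refine thin_of_dyadic (T := F) (size := size) (C := |C₀|) (j₀ := j₀) (abs_nonneg _) hε.le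
    (fun m => (size_finite ι K m).subset fun x hx => ⟨hx.1.1, hx.2⟩) fun j hj => ?_
  set T : ℝ := (2 : ℝ) ^ (j + 1) with hT
  have hTj : max T₀ 4 ≤ T := hj₀.trans (pow_le_pow_right₀ (by norm_num) hj)
  obtain ⟨hfin, hcard⟩ := H F le_rfl ι ξ T ((le_max_left _ _).trans hTj)
  rw [Nat.sub_self, pow_zero, mul_one] at hcard
  refine le_trans ?_ (hcard.trans ?_)
  · refine Nat.cast_le.2 (Set.ncard_le_ncard_of_injOn (fun (x : F) (_ : Fin 1) => x) ?_ ?_ hfin)
    · rintro x ⟨⟨hx1, hx2⟩, hx3, hx4⟩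
      refine exceptional_of (periods Λ u t S) d ι ξ K ((le_max_right _ _).trans hTj) hx1 ?_ ?_ hx2
      · have h3 : ((2 ^ j : ℕ) : ℝ) ≤ size x := by exact_mod_cast hx3
        push_cast at h3
        rw [hT, pow_succ]
        linarith
      · have h3 : ((size x : ℕ) : ℝ) ≤ ((2 ^ (j + 1) : ℕ) : ℝ) := by exact_mod_cast hx4.le
        push_cast at h3
        exact h3
    · intro x _ y _ hxy
      exact congrFun hxy 0
  · refine mul_le_mul_of_nonneg_right (le_abs_self C₀) ?_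
    positivity

end Pool.Agent.Helper12.PC
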