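import Mathlib

set_option autoImplicit false

/-! Sets with few elements of each dyadic size. -/

namespace Pool.Agent.Helper12.PC

variable {T : Type*} {size : T → ℕ} {bad : T → Prop} {C ε : ℝ} {j₀ : ℕ}

lemma dyadic_step (hC : 0 ≤ C) (hε : 0 ≤ ε) (hfin : ∀ m : ℕ, {x | bad x ∧ size x < m}.Finite)
    (h : ∀ j : ℕ, j₀ ≤ j + 1 →
      ({x | bad x ∧ 2 ^ j ≤ size x ∧ size x < 2 ^ (j + 1)}.ncard : ℝ) ≤ C * ((2 : ℝ) ^ (j + 1)) ^ ε) (j : ℕ) :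
    ({x | bad x ∧ size x < 2 ^ j}.ncard : ℝ) ≤
      ({x | bad x ∧ size x < 2 ^ j₀}.ncard : ℝ) + j * (C * ((2 : ℝ) ^ j) ^ ε) := by
  have hsmall : ∀ i ≤ j₀, ({x | bad x ∧ size x < 2 ^ i}.ncard : ℝ) ≤
      ({x | bad x ∧ size x < 2 ^ j₀}.ncard : ℝ) + i * (C * ((2 : ℝ) ^ i) ^ ε) := by
    intro i hi
    have h1 : ({x | bad x ∧ size x < 2 ^ i}.ncard : ℝ) ≤ ({x | bad x ∧ size x < 2 ^ j₀}.ncard : ℝ) := by
      exact_mod_cast Set.ncard_le_ncard (show {x | bad x ∧ size x < 2 ^ i} ⊆ {x | bad x ∧ size x < 2 ^ j₀} from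
        fun x hx => ⟨hx.1, lt_of_lt_of_le hx.2 (Nat.pow_le_pow_right (by norm_num) hi)⟩) (hfin _)
    have h2 : 0 ≤ (i : ℝ) * (C * ((2 : ℝ) ^ i) ^ ε) := by positivity
    linarith
  induction j with
  | zero => exact hsmall 0 (Nat.zero_le _)
  | succ j ih =>
    by_cases hj : j + 1 ≤ j₀
    · exact hsmall _ hj
    · have h1 : {x | bad x ∧ size x < 2 ^ (j + 1)} ⊆ {x | bad x ∧ size x < 2 ^ j} ∪
          {x | bad x ∧ 2 ^ j ≤ size x ∧ size x < 2 ^ (j + 1)} := by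
        rintro x ⟨hx, hx2⟩
        by_cases h3 : size x < 2 ^ j
        · exact Or.inl ⟨hx, h3⟩
        · exact Or.inr ⟨hx, not_lt.1 h3, hx2⟩
      have hf : {x | bad x ∧ 2 ^ j ≤ size x ∧ size x < 2 ^ (j + 1)}.Finite :=
        (hfin (2 ^ (j + 1))).subset fun x hx => ⟨hx.1, hx.2.2⟩
      have h2 : ({x | bad x ∧ size x < 2 ^ (j + 1)}.ncard : ℝ) ≤ ({x | bad x ∧ size x < 2 ^ j}.ncard : ℝ) +
          ({x | bad x ∧ 2 ^ j ≤ size x ∧ size x < 2 ^ (j + 1)}.ncard : ℝ) := by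
        exact_mod_cast (Set.ncard_le_ncard h1 ((hfin _).union hf)).trans (Set.ncard_union_le _ _)
      have h3 := h j (by omega)
      have h4 : ((2 : ℝ) ^ j) ^ ε ≤ ((2 : ℝ) ^ (j + 1)) ^ ε :=
        Real.rpow_le_rpow (by positivity) (pow_le_pow_right₀ (by norm_num) (by omega)) hε
      have h5 : (j : ℝ) * (C * ((2 : ℝ) ^ j) ^ ε) ≤ j * (C * ((2 : ℝ) ^ (j + 1)) ^ ε) := by gcongr
      push_cast
      calc ({x | bad x ∧ size x < 2 ^ (j + 1)}.ncard : ℝ)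
          ≤ ({x | bad x ∧ size x < 2 ^ j₀}.ncard : ℝ) + j * (C * ((2 : ℝ) ^ (j + 1)) ^ ε) +
            C * ((2 : ℝ) ^ (j + 1)) ^ ε := by linarith
        _ = _ := by ring

/-- at most `C' X ^ (ε + η)` elements of size up to `X` -/
theorem thin_of_dyadic (hC : 0 ≤ C) (hε : 0 ≤ ε) (hfin : ∀ m : ℕ, {x | bad x ∧ size x < m}.Finite)
    (h : ∀ j : ℕ, j₀ ≤ j + 1 →
      ({x | bad x ∧ 2 ^ j ≤ size x ∧ size x < 2 ^ (j + 1)}.ncard : ℝ) ≤ C * ((2 : ℝ) ^ (j + 1)) ^ ε) :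
    ∀ η : ℝ, 0 < η → ∃ C' : ℝ, ∀ X : ℝ, 1 ≤ X → {x | bad x ∧ (size x : ℝ) ≤ X}.Finite ∧
      ({x | bad x ∧ (size x : ℝ) ≤ X}.ncard : ℝ) ≤ C' * X ^ (ε + η) := by
  intro η hη
  set N₁ : ℝ := ({x | bad x ∧ size x < 2 ^ j₀}.ncard : ℝ) with hN₁
  refine ⟨N₁ + (1 / (η * Real.log 2) + 1) * (C * 2 ^ ε), fun X hX => ?_⟩
  have hX0 : 0 < X := by linarith
  set n : ℕ := ⌊X⌋₊ with hn
  have hn1 : 1 ≤ n := Nat.one_le_floor_iff _ |>.2 hX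
  set j : ℕ := Nat.log 2 n + 1 with hj
  have hlt : n < 2 ^ j := Nat.lt_pow_succ_log_self (by norm_num) n
  have hsub : {x | bad x ∧ (size x : ℝ) ≤ X} ⊆ {x | bad x ∧ size x < 2 ^ j} := by
    rintro x ⟨hx, hs⟩
    exact ⟨hx, lt_of_le_of_lt (Nat.le_floor hs) hlt⟩
  refine ⟨(hfin _).subset hsub, ?_⟩
  have h1 : ({x | bad x ∧ (size x : ℝ) ≤ X}.ncard : ℝ) ≤ N₁ + j * (C * ((2 : ℝ) ^ j) ^ ε) :=
    le_trans (by exact_mod_cast Set.ncard_le_ncard hsub (hfin _)) (dyadic_step hC hε hfin h j)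
  have hlog2 : 0 < Real.log 2 := Real.log_pos (by norm_num)
  have hle : ((2 ^ Nat.log 2 n : ℕ) : ℝ) ≤ X := by
    refine le_trans ?_ (Nat.floor_le hX0.le)
    exact_mod_cast Nat.pow_log_le_self 2 (by omega)
  push_cast at hle
  have h2 : ((Nat.log 2 n : ℕ) : ℝ) ≤ Real.log X / Real.log 2 := by
    rw [le_div_iff₀ hlog2, ← Real.log_pow]
    exact Real.log_le_log (by positivity) hle
  have h2j : (2 : ℝ) ^ j ≤ 2 * X := by
    rw [hj, pow_succ]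
    linarith
  have h4 : Real.log X ≤ X ^ η / η := Real.log_le_rpow_div hX0.le hη
  have hXη : 1 ≤ X ^ η := Real.one_le_rpow hX hη.le
  have hXε : 1 ≤ X ^ ε := Real.one_le_rpow hX hε
  have h5 : (j : ℝ) ≤ (1 / (η * Real.log 2) + 1) * X ^ η := by
    have h6 : (j : ℝ) = (Nat.log 2 n : ℕ) + 1 := by rw [hj]; push_cast; ring
    have h7 : Real.log X / Real.log 2 ≤ X ^ η / η / Real.log 2 :=
      div_le_div_of_nonneg_right h4 hlog2.le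
    have h8 : X ^ η / η / Real.log 2 = 1 / (η * Real.log 2) * X ^ η := by
      field_simp
    rw [h6]
    linarith
  have h6 : ((2 : ℝ) ^ j) ^ ε ≤ 2 ^ ε * X ^ ε := by
    rw [← Real.mul_rpow (by norm_num) hX0.le]
    exact Real.rpow_le_rpow (by positivity) h2j hε
  have h7 : X ^ (ε + η) = X ^ ε * X ^ η := Real.rpow_add hX0 _ _
  have hN₁0 : 0 ≤ N₁ := Nat.cast_nonneg _
  have h8 : N₁ ≤ N₁ * X ^ (ε + η) := by
    refine le_mul_of_one_le_right hN₁0 ?_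
    rw [h7]
    exact one_le_mul_of_one_le_of_one_le hXε hXη
  have h9 : 0 ≤ 1 / (η * Real.log 2) + 1 := by positivity
  calc ({x | bad x ∧ (size x : ℝ) ≤ X}.ncard : ℝ) ≤ N₁ + j * (C * ((2 : ℝ) ^ j) ^ ε) := h1
    _ ≤ N₁ * X ^ (ε + η) + (1 / (η * Real.log 2) + 1) * X ^ η * (C * (2 ^ ε * X ^ ε)) := by
        gcongr
    _ = (N₁ + (1 / (η * Real.log 2) + 1) * (C * 2 ^ ε)) * X ^ (ε + η) := by rw [h7]; ring

end Pool.Agent.Helper12.PC
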